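import Mathlib
import Pool.Agent.N990.RT.Stm

/-!
# RT/CNS: consistency of the conditional expectations
-/

open MeasureTheory
open Pool.Agent.N988.EA

namespace Pool.Agent.N769.RT

open Pool.Agent.N990.RT

/-- The ends of `H n` after the replacement inside `H (n + 1)`. -/
theorem ends_repl (h2 : S_GEO) (p : ℕ → Fin 2 × Bool) (n : ℕ) (ω : VInf p → Ang)
    (σ : Vert 2 (n + 1) → Ang) :
    ends p n (repl p (n + 1) ω σ) = fun t =>
      (Sum.elim (ends p (n + 1) ω) σ : Pt 2 (n + 1) → Ang) (emb (p n).1 (p n).2 (.inl t)) := by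
  obtain ⟨-, hemb, hinj, -, hrepl, -⟩ := h2 p
  funext t
  show repl p (n + 1) ω σ (inc p n (.inl t)) = _
  rw [← hemb n (.inl t)]
  rcases hx : (emb (p n).1 (p n).2 (.inl t) : Pt 2 (n + 1)) with s | x
  · rw [(hrepl (n + 1) ω σ).2 _ (fun x hx' => by
      have := hinj (n + 1) hx'
      exact absurd this (by simp))]
    rfl
  · rw [(hrepl (n + 1) ω σ).1 x]
    rfl

theorem inner (h2 : S_GEO) (β : ℝ) (p : ℕ → Fin 2 × Bool) (n : ℕ) (f : (VInf p → Ang) → ℝ)
    (ω : VInf p → Ang) (σ : Vert 2 (n + 1) → Ang) :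
    GG β p n f (repl p (n + 1) ω σ) = ∫ σ', f (repl p (n + 1) ω (upd n (p n) σ σ'))
      ∂(gib β n fun t => (Sum.elim (ends p (n + 1) ω) σ : Pt 2 (n + 1) → Ang)
        (emb (p n).1 (p n).2 (.inl t))) := by
  obtain ⟨-, -, -, -, -, hrr, -⟩ := h2 p
  unfold GG
  rw [ends_repl h2 p n ω σ]
  simp only [hrr]

theorem t_cns (_ : Pool.Agent.N990.RT.S_BAS) (h2 : Pool.Agent.N990.RT.S_GEO)
    (h3 : Pool.Agent.N990.RT.S_FIN) : Pool.Agent.N990.RT.S_CNS := by
  intro β p n f hf hC ω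
  obtain ⟨C, hC⟩ := hC
  have hmeas : Measurable fun z : (VInf p → Ang) × (Vert 2 (n + 1) → Ang) =>
      repl p (n + 1) z.1 z.2 := (h2 p).2.2.2.2.2.2.2 (n + 1)
  have hG : Measurable fun σ : Vert 2 (n + 1) → Ang => f (repl p (n + 1) ω σ) :=
    hf.comp (hmeas.comp (measurable_const.prodMk measurable_id))
  have key := h3 β n (p n) (ends p (n + 1) ω) (fun σ => f (repl p (n + 1) ω σ)) hG
    ⟨C, fun σ => hC _⟩
  have e1 : GG β p (n + 1) (GG β p n f) ω = ∫ σ, (∫ σ', f (repl p (n + 1) ω (upd n (p n) σ σ'))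
      ∂(gib β n fun t => (Sum.elim (ends p (n + 1) ω) σ : Pt 2 (n + 1) → Ang)
        (emb (p n).1 (p n).2 (.inl t)))) ∂(gib β (n + 1) (ends p (n + 1) ω)) := by
    unfold GG
    refine integral_congr_ae (Filter.Eventually.of_forall fun σ => ?_)
    exact inner h2 β p n f ω σ
  exact e1.trans key.symm

end Pool.Agent.N769.RT
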